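import Pool.Agent.W269.BL.Stm

/-!
# The discriminant of an irreducible polynomial over a finite field
-/

set_option autoImplicit false

open Polynomial

namespace Pool.Agent.W538.BL

open Pool.Agent.W269.BL

universe u

section pairs

variable {L : Type u} [Field L]

theorem prod_pairs (d : ℕ) (t : Fin d → L) :
    ∏ j, ∏ i ∈ Finset.univ.erase j, (t j - t i) =
      (-1) ^ (d * (d - 1) / 2) * (∏ i, ∏ j ∈ Finset.Ioi i, (t j - t i)) ^ 2 := by
  have h1 : ∀ j, ∏ i ∈ Finset.univ.erase j, (t j - t i) =
      (∏ i ∈ Finset.Iio j, (t j - t i)) * ∏ i ∈ Finset.Ioi j, (t j - t i) := by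
    intro j
    rw [← Finset.prod_union]
    · congr 1
      ext i
      simp only [Finset.mem_erase, Finset.mem_univ, and_true, Finset.mem_union, Finset.mem_Iio,
        Finset.mem_Ioi]
      exact ne_iff_lt_or_gt
    · rw [Finset.disjoint_left]
      intro i hi hi'
      rw [Finset.mem_Iio] at hi
      rw [Finset.mem_Ioi] at hi'
      exact lt_asymm hi hi'
  rw [Finset.prod_congr rfl fun j _ => h1 j, Finset.prod_mul_distrib]
  have h2 : ∏ j, ∏ i ∈ Finset.Iio j, (t j - t i) = ∏ i, ∏ j ∈ Finset.Ioi i, (t j - t i) :=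
    Finset.prod_comm' (by simp)
  have h3 : ∀ j, ∏ i ∈ Finset.Ioi j, (t j - t i) =
      (-1) ^ (d - 1 - (j : ℕ)) * ∏ i ∈ Finset.Ioi j, (t i - t j) := by
    intro j
    rw [← Fin.card_Ioi j, ← Finset.prod_const, ← Finset.prod_mul_distrib]
    exact Finset.prod_congr rfl fun i _ => by ring
  have h4 : ∏ j : Fin d, ((-1 : L)) ^ (d - 1 - (j : ℕ)) = (-1) ^ (d * (d - 1) / 2) := by
    rw [Finset.prod_pow_eq_pow_sum]
    congr 1
    rw [Fin.sum_univ_eq_sum_range (fun k => d - 1 - k) d, Finset.sum_range_reflect (fun k => k) d,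
      Finset.sum_range_id]
  rw [h2, Finset.prod_congr rfl fun j _ => h3 j, Finset.prod_mul_distrib, h4]
  ring

end pairs

theorem main : StmPEL1.{u} := by
  intro K _ _ _ h2 P hP hirr
  classical
  haveI : Fact (Irreducible P) := ⟨hirr⟩
  set q := Fintype.card K with hq
  set d := P.natDegree with hd
  have hd1 : 0 < d := hirr.natDegree_pos
  let L := AdjoinRoot P
  let pb : PowerBasis K L := AdjoinRoot.powerBasis hirr.ne_zero
  haveI : Module.Finite K L := pb.finite
  haveI : Finite L := Module.finite_of_finite K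
  have hrank : Module.finrank K L = d := by
    rw [pb.finrank]
    rfl
  have hchar : ringChar K ≠ 2 := by
    intro h
    apply h2
    have := ringChar.Nat.cast_ringChar (R := K)
    rw [h] at this
    exact_mod_cast this
  let φ : K →+* L := algebraMap K L
  have hφ : Function.Injective φ := φ.injective
  let θ : L := AdjoinRoot.root P
  let F : L →ₐ[K] L := FiniteField.frobeniusAlgHom K L
  have hF : ∀ x : L, F x = x ^ q := fun x => rfl
  have hFn : ∀ (n : ℕ) (x : L), (F ^ n) x = x ^ (q ^ n) := by
    intro n x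
    rw [AlgHom.coe_pow, FiniteField.coe_frobeniusAlgHom, pow_iterate]
  have hord : orderOf F = d := by
    rw [← hrank]
    exact FiniteField.orderOf_frobeniusAlgHom K L
  let t : Fin d → L := fun j => θ ^ (q ^ (j : ℕ))
  have ht : ∀ j, t j = (F ^ (j : ℕ)) θ := fun j => (hFn _ _).symm
  have hroot : ∀ j, aeval (t j) P = 0 := by
    intro j
    rw [ht, aeval_algHom_apply]
    have : aeval θ P = 0 := AdjoinRoot.aeval_eq P ▸ AdjoinRoot.mk_self
    rw [this, map_zero]
  have hinj : Function.Injective t := by
    intro i j hij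
    rw [ht, ht] at hij
    have h3 : F ^ (i : ℕ) = F ^ (j : ℕ) := AdjoinRoot.algHom_ext hij
    have h4 := pow_injOn_Iio_orderOf (x := F)
    rw [hord] at h4
    exact Fin.ext (h4 i.2 j.2 h3)
  have hprod : P.map φ = ∏ j, (X - C (t j)) := by
    apply Polynomial.eq_of_monic_of_dvd_of_natDegree_le
    · exact monic_prod_of_monic _ _ fun j _ => monic_X_sub_C _
    · exact hP.map φ
    · apply Finset.prod_dvd_of_coprime
      · intro i _ j _ hij
        exact pairwise_coprime_X_sub_C hinj hij
      · intro j _
        rw [dvd_iff_isRoot, IsRoot.def, eval_map, ← aeval_def]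
        exact hroot j
    · rw [natDegree_map_eq_of_injective hφ, natDegree_prod_of_monic _ _
        fun j _ => monic_X_sub_C _]
      simp [hd]
  -- the discriminant
  set δ : L := ∏ i, ∏ j ∈ Finset.Ioi i, (t j - t i) with hδ
  have hδv : δ = (Matrix.vandermonde t).det := (Matrix.det_vandermonde t).symm
  have hδ0 : δ ≠ 0 := by
    rw [hδv]
    exact Matrix.det_vandermonde_ne_zero_iff.2 hinj
  have hres : φ (rs P (derivative P)) = (-1) ^ (d * (d - 1) / 2) * δ ^ 2 := by
    have h3 : φ (rs P (derivative P)) =
        resultant (P.map φ) ((derivative P).map φ) P.natDegree (derivative P).natDegree := by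
      rw [rs, resultant_map_map]
    have h4 : (P.map φ).natDegree = P.natDegree := natDegree_map_eq_of_injective hφ P
    have hroots : (P.map φ).roots = Finset.univ.val.map t := by
      rw [hprod]
      have := roots_multiset_prod_X_sub_C (Finset.univ.val.map t)
      rw [Multiset.map_map] at this
      exact this
    have hsplit : (P.map φ).Splits := by
      rw [hprod]
      exact Splits.prod fun j _ => Splits.X_sub_C _
    have h5 := resultant_eq_prod_eval (P.map φ) ((derivative P).map φ)
      (derivative P).natDegree natDegree_map_le hsplit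
    rw [h4] at h5
    rw [h3, h5, (hP.map φ).leadingCoeff, one_pow, one_mul, hroots, Multiset.map_map]
    have h6 : ∀ j, eval (t j) ((derivative P).map φ) =
        ∏ i ∈ Finset.univ.erase j, (t j - t i) := by
      intro j
      rw [← derivative_map, hprod, ← Lagrange.nodal_eq,
        Lagrange.eval_nodal_derivative_eval_node_eq (Finset.mem_univ j), Lagrange.eval_nodal]
    rw [hδ, ← prod_pairs]
    exact Finset.prod_congr rfl fun j _ => h6 j
  -- the Frobenius
  have hfr : δ ^ q = (-1) ^ (d - 1) * δ := by
    have h3 : δ ^ q = F δ := (hF δ).symm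
    have h4 : F δ = ((Matrix.vandermonde t).map F).det := by
      rw [hδv, AlgHom.map_det]
      rfl
    have h5 : (Matrix.vandermonde t).map F = (Matrix.vandermonde t).submatrix (finRotate d) id := by
      ext i j
      rw [Matrix.map_apply, Matrix.submatrix_apply, Matrix.vandermonde_apply,
        Matrix.vandermonde_apply, map_pow, id]
      congr 1
      rw [hF]
      obtain ⟨n, hn⟩ : ∃ n, d = n + 1 := ⟨d - 1, by omega⟩
      have hθ : θ ^ (q ^ d) = θ := by
        rw [← hFn, ← hord, pow_orderOf_eq_one]
        rfl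
      have key : ∀ (m : ℕ) (hm : m = n + 1) (s : Fin m → L), (∀ k : Fin m, s k = θ ^ (q ^ (k : ℕ))) →
          ∀ i : Fin m, s i ^ q = s (finRotate m i) := by
        intro m hm s hs i
        subst hm
        rw [hs, hs, ← pow_mul, ← pow_succ]
        rcases lt_or_ge (i : ℕ) n with hi | hi
        · have h6 : finRotate (n + 1) i = ⟨(i : ℕ) + 1, Nat.succ_lt_succ hi⟩ := finRotate_of_lt hi
          rw [h6]
        · have h7 : i = Fin.last n := Fin.ext (by
            have := i.2
            simp only [Fin.val_last]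
            omega)
          rw [h7, finRotate_last]
          simp only [Fin.val_last, Fin.val_zero, pow_zero, pow_one]
          rw [hn] at hθ
          exact hθ
      exact key d hn t (fun _ => rfl) i
    rw [h3, h4, h5, Matrix.det_permute, sign_finRotate, ← hδv]
    push_cast
    rfl
  have hqodd : q % 2 = 1 := FiniteField.odd_card_of_char_ne_two hchar
  have hpw : (δ ^ 2) ^ (q / 2) = (-1) ^ (d - 1) := by
    have h3 : (δ ^ 2) ^ (q / 2) * δ = (-1) ^ (d - 1) * δ := by
      rw [← hfr, ← pow_mul, ← pow_succ]
      congr 1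
      omega
    exact mul_right_cancel₀ hδ0 h3
  set x : K := (-1) ^ (d * (d - 1) / 2) * rs P (derivative P) with hx
  have hφx : φ x = δ ^ 2 := by
    rw [hx, map_mul, map_pow, map_neg, map_one, hres, ← mul_assoc, ← mul_pow]
    norm_num
  have hx0 : x ≠ 0 := by
    intro h
    rw [h, map_zero] at hφx
    exact pow_ne_zero 2 hδ0 hφx.symm
  have hc : ((quadraticChar K x : ℤ) : K) = (((-1) ^ (d - 1) : ℤ) : K) := by
    rw [quadraticChar_eq_pow_of_char_ne_two' hchar x]
    apply hφ
    rw [map_pow, hφx, hpw]
    push_cast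
    rw [map_pow, map_neg, map_one]
  have hfin : quadraticChar K x = (-1) ^ (d - 1) := by
    apply Int.cast_injOn_of_ringChar_ne_two hchar _ _ hc
    · rcases quadraticChar_dichotomy hx0 with h | h <;> rw [h] <;> simp
    · rcases neg_one_pow_eq_or ℤ (d - 1) with h | h <;> rw [h] <;> simp
  rw [hfin]
  obtain ⟨n, hn⟩ : ∃ n, d = n + 1 := ⟨d - 1, by omega⟩
  rw [hn]
  have : n + 1 + 1 = n + 2 := rfl
  rw [this, pow_add]
  simp

end Pool.Agent.W538.BL
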